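import Pool.Agent.Helper93.ML.Stmts2

/-!
# Module M6_Bottle
-/

namespace Pool.Agent.Helper54.MLBottle

open Pool.Agent.Helper93.ML

section paths

variable {X : Type*} {d : X → X → ℕ}

/-- a path of `n` steps from `A` to `B` inside `S` -/
def PIn (d : X → X → ℕ) (S : Set X) (A B : X) (n : ℕ) : Prop :=
  ∃ f : ℕ → X, IsPath d f n ∧ f 0 = A ∧ f n = B ∧ ∀ i ≤ n, f i ∈ S

theorem PIn.mono {S T : Set X} {A B : X} {n : ℕ} (h : PIn d S A B n) (hST : S ⊆ T) :
    PIn d T A B n := by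
  obtain ⟨f, h1, h2, h3, h4⟩ := h
  exact ⟨f, h1, h2, h3, fun i hi => hST (h4 i hi)⟩

theorem PIn.trans {S : Set X} {A B C : X} {n m : ℕ} (h : PIn d S A B n) (h' : PIn d S B C m) :
    PIn d S A C (n + m) := by
  obtain ⟨f, h1, h2, h3, h4⟩ := h
  obtain ⟨g, g1, g2, g3, g4⟩ := h'
  refine ⟨fun i => if i ≤ n then f i else g (i - n), ?_, ?_, ?_, ?_⟩
  · intro i hi
    by_cases hc : i < n
    · have e1 : i ≤ n := by omega
      have e2 : i + 1 ≤ n := by omega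
      simp only [e1, e2, if_true]
      exact h1 i hc
    · by_cases he : i = n
      · subst he
        have e2 : ¬ (i + 1 ≤ i) := by omega
        have e3 : i + 1 - i = 1 := by omega
        simp only [le_refl, if_true, e2, if_false, e3]
        rw [h3, ← g2]
        exact g1 0 (by omega)
      · have e1 : ¬ (i ≤ n) := by omega
        have e2 : ¬ (i + 1 ≤ n) := by omega
        have e3 : i + 1 - n = (i - n) + 1 := by omega
        simp only [e1, e2, if_false, e3]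
        exact g1 _ (by omega)
  · simp [h2]
  · by_cases hm : m = 0
    · subst hm
      simp only [add_zero, le_refl, if_true]
      rw [h3, ← g2, ← g3]
    · have e1 : ¬ (n + m ≤ n) := by omega
      simp only [e1, if_false, Nat.add_sub_cancel_left]
      exact g3
  · intro i hi
    by_cases hc : i ≤ n
    · simp only [hc, if_true]; exact h4 i hc
    · simp only [hc, if_false]; exact g4 _ (by omega)

/-- subpaths -/
theorem PIn.sub {f : ℕ → X} {n : ℕ} (hf : IsPath d f n) {i j : ℕ} (hij : i ≤ j) (hj : j ≤ n) :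
    PIn d (f '' {t | t ≤ n}) (f i) (f j) (j - i) := by
  refine ⟨fun t => f (i + t), fun t ht => ?_, by simp, ?_, fun t ht => ?_⟩
  · have := hf (i + t) (by omega)
    simpa [add_assoc] using this
  · show f (i + (j - i)) = f j
    congr 1; omega
  · exact ⟨i + t, by simp only [Set.mem_ofPred_eq]; omega, rfl⟩

end paths

section mark

variable {G : Type} [Group G] (M : Mark G)

/-- geodesics -/
theorem geod_in (P Q : G) : PIn M.d {z | M.d P z ≤ M.d P Q ∧ M.d Q z ≤ M.d P Q} P Q (M.d P Q) := by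
  obtain ⟨w, h1, h2⟩ := M.exists_geod (P⁻¹ * Q)
  have hQ : P * M.ev w = Q := by rw [h1]; group
  have hw : M.Gd w := by unfold Mark.Gd; rw [h2, h1]
  have hd : M.d P Q = w.length := by rw [h2]; rfl
  refine ⟨M.pth P w, M.isPath_pth P w _, M.pth_zero P w, ?_, ?_⟩
  · rw [hd, M.pth_length, hQ]
  · intro i hi
    rw [hd] at hi
    have e1 := M.pth_geod (P := P) hw (Nat.zero_le i) hi
    have e2 := M.pth_geod (P := P) hw hi le_rfl
    rw [M.pth_zero] at e1
    rw [M.pth_length, hQ] at e2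
    have e3 := M.isGeo.symm Q (M.pth P w i)
    exact ⟨by omega, by omega⟩

/-- a straight geodesic path -/
theorem geod_str (P Q : G) : ∃ g : ℕ → G, IsPath M.d g (M.d P Q) ∧ Str M.d g (M.d P Q) 0 ∧
    g 0 = P ∧ g (M.d P Q) = Q ∧ ∀ t ≤ M.d P Q, M.d P (g t) + M.d (g t) Q = M.d P Q := by
  obtain ⟨w, h1, h2⟩ := M.exists_geod (P⁻¹ * Q)
  have hQ : P * M.ev w = Q := by rw [h1]; group
  have hw : M.Gd w := by unfold Mark.Gd; rw [h2, h1]
  have hd : M.d P Q = w.length := by rw [h2]; rfl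
  rw [hd]
  refine ⟨M.pth P w, M.isPath_pth P w _, ?_, M.pth_zero P w, ?_, ?_⟩
  · intro i j k hij hjk hk
    rw [M.pth_geod hw hij (by omega), M.pth_geod hw hjk hk, M.pth_geod hw (by omega) hk]
    omega
  · rw [M.pth_length, hQ]
  · intro t ht
    have e1 := M.pth_geod (P := P) hw (Nat.zero_le t) ht
    have e2 := M.pth_geod (P := P) hw ht le_rfl
    rw [M.pth_zero] at e1
    rw [M.pth_length, hQ] at e2
    omega

end mark

section main

variable {G : Type} [Group G] {M : Mark G} {ι : Type} (L : SC M ι)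

/-- the set of points of the quotient close to a relator circle -/
def nbh (v : L.Y) (r : ℕ) : Set L.H := {z | ∃ i : ℤ, L.MH.d z ((L.ax v i : G) : L.H) ≤ r}

theorem ax_mod (v : L.Y) (k i : ℤ) : ((L.ax v (i + k * L.τ) : G) : L.H) = (L.ax v i : G) := by
  rw [L.ax_shift, eq_comm, Mark.quo_eq]
  exact ⟨_, L.rt_mem v k, rfl⟩

theorem MH_le (p q : G) : L.MH.d (p : L.H) (q : L.H) ≤ M.d p q := M.quo_d_le L.N p q

/-- along an axis, increasing indices -/
theorem ax_in0 (v : L.Y) (r : ℕ) (i : ℤ) (n : ℕ) :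
    PIn L.MH.d (nbh L v r) ((L.ax v i : G) : L.H) ((L.ax v (i + n) : G) : L.H) n := by
  refine ⟨fun t => ((L.ax v (i + t) : G) : L.H), fun t _ => ?_, by simp, rfl, fun t _ => ?_⟩
  · have h1 := L.ax_step v (i + t)
    have h2 := MH_le L (L.ax v (i + t)) (L.ax v (i + t + 1))
    simp only
    push_cast
    rw [← add_assoc]
    omega
  · refine ⟨i + t, ?_⟩
    rw [L.MH.isGeo.self]; omega

theorem PIn.symm {X : Type*} {d : X → X → ℕ} (hd : IsGeo d) {S : Set X} {A B : X} {n : ℕ}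
    (h : PIn d S A B n) : PIn d S B A n := by
  obtain ⟨f, h1, h2, h3, h4⟩ := h
  refine ⟨fun i => f (n - i), fun i hi => ?_, by simpa using h3, by simpa using h2,
    fun i _ => h4 _ (by omega)⟩
  have := h1 (n - (i + 1)) (by omega)
  rw [show n - (i + 1) + 1 = n - i by omega] at this
  rw [hd.symm]; exact this

theorem ax_in (v : L.Y) (r : ℕ) (i j : ℤ) :
    PIn L.MH.d (nbh L v r) ((L.ax v i : G) : L.H) ((L.ax v j : G) : L.H) (i - j).natAbs := by
  rcases le_total i j with h | h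
  · obtain ⟨n, rfl⟩ := Int.le.dest h
    have := ax_in0 L v r i n
    rwa [show (i - (i + (n : ℤ))).natAbs = n by omega]
  · obtain ⟨n, rfl⟩ := Int.le.dest h
    have := PIn.symm L.MH.isGeo (ax_in0 L v r j n)
    rwa [show (j + (n : ℤ) - j).natAbs = n by omega]

/-- geodesic from a point near an axis point to the axis point -/
theorem geo_nbh (v : L.Y) (r : ℕ) (i : ℤ) (z : L.H) (h : L.MH.d z ((L.ax v i : G) : L.H) ≤ r) :
    PIn L.MH.d (nbh L v r) z ((L.ax v i : G) : L.H) (L.MH.d z ((L.ax v i : G) : L.H)) := by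
  refine (geod_in L.MH z _).mono fun y hy => ⟨i, ?_⟩
  have h1 := hy.2
  have h2 := L.MH.isGeo.symm y ((L.ax v i : G) : L.H)
  omega

/-- the detour -/
theorem detour (v : L.Y) (r : ℕ) {z z' : L.H} {i j : ℤ}
    (hz : L.MH.d z ((L.ax v i : G) : L.H) ≤ r) (hz' : L.MH.d z' ((L.ax v j : G) : L.H) ≤ r)
    (hj : (i - j).natAbs ≤ L.τ) :
    ∃ ℓ, ℓ + (i - j).natAbs ≤ L.τ + 2 * r ∧ PIn L.MH.d (nbh L v r) z z' ℓ := by
  obtain ⟨k, hk⟩ : ∃ k : ℤ, (i - (j + k * L.τ)).natAbs + (i - j).natAbs = L.τ := by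
    rcases le_total i j with h | h
    · exact ⟨-1, by omega⟩
    · exact ⟨1, by omega⟩
  have h1 := geo_nbh L v r i z hz
  have h2 := ax_in L v r i (j + k * L.τ)
  rw [ax_mod] at h2
  have h3 := PIn.symm L.MH.isGeo (geo_nbh L v r j z' hz')
  exact ⟨_, by omega, (h1.trans h2).trans h3⟩

variable {x : G} {ρ' D' : ℕ}

theorem pow_d (hx : ∀ j : ℕ, M.len (x ^ j) = j) (i j : ℤ) : M.d (x ^ i) (x ^ j) = (i - j).natAbs := by
  unfold Mark.d
  rw [← zpow_neg, ← zpow_add]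
  rcases le_total i j with h | h
  · obtain ⟨n, rfl⟩ := Int.le.dest h
    rw [show -i + (i + (n : ℤ)) = n by ring, zpow_natCast, hx]
    omega
  · obtain ⟨n, rfl⟩ := Int.le.dest h
    rw [show -(j + (n : ℤ)) + j = -n by ring, zpow_neg, M.len_inv, zpow_natCast, hx]
    omega

/-- the points of the line close to a circle have bounded diameter -/
theorem diam (hx : ∀ j : ℕ, M.len (x ^ j) = j)
    (hρ : ∀ (v : L.Y) (i j : ℤ), L.dv v (x ^ i) (x ^ j) ≤ ρ') (h1 : ρ' ≤ L.θ) (h2 : L.κ ≤ D')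
    (h3 : 100 * D' ≤ L.θ) (v : L.Y) {j j' : ℤ}
    (hj : ((x ^ j : G) : L.H) ∈ nbh L v (24 * D')) (hj' : ((x ^ j' : G) : L.H) ∈ nbh L v (24 * D')) :
    (j - j').natAbs ≤ ρ' + 230 * D' := by
  have hκ := L.hκ
  have hθ := L.hθ
  have hτ := L.hτ
  obtain ⟨y, hy⟩ := hj
  obtain ⟨y'', hy''⟩ := hj'
  obtain ⟨m1, hm1, e1⟩ := M.quo_d_lift L.N (x ^ j) (L.ax v y)
  obtain ⟨m2, hm2, e2⟩ := M.quo_d_lift L.N (x ^ j') (L.ax v y'')
  change _ = L.MH.d _ _ at e1 e2
  obtain ⟨k, hk⟩ := L.ax_smul m1 v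
  set u := m1 • v with hu
  have f1 : m1 * L.ax v y = L.ax u (y - k * L.τ) := by rw [hk, sub_add_cancel]
  set y1 := y - k * L.τ with hy1
  -- the second point
  obtain ⟨q, hq⟩ : ∃ q : ℤ, 2 * (y1 - (y'' - k * L.τ + q * L.τ)).natAbs ≤ L.τ := by
    set a := y1 - (y'' - k * L.τ) with ha
    refine ⟨(2 * a + L.τ) / (2 * L.τ), ?_⟩
    have g1 := Int.mul_ediv_add_emod (2 * a + L.τ) (2 * L.τ)
    have g2 := Int.emod_nonneg (2 * a + L.τ) (show (2 * (L.τ : ℤ)) ≠ 0 by omega)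
    have g3 := Int.emod_lt_of_pos (2 * a + L.τ) (show (0 : ℤ) < 2 * (L.τ : ℤ) by omega)
    set q := (2 * a + L.τ) / (2 * L.τ) with hq
    have g4 : y1 - (y'' - k * L.τ + q * L.τ) = a - q * L.τ := by rw [ha]; ring
    rw [g4]
    have g5 : 2 * (L.τ : ℤ) * q = 2 * (q * L.τ) := by ring
    omega
  set y' := y'' - k * L.τ + q * L.τ with hy'
  obtain ⟨m, hm, f2⟩ : ∃ m ∈ L.N, m2 * L.ax v y'' = m * L.ax u y' := by
    refine ⟨m2 * m1⁻¹ * (L.rt u ^ q)⁻¹, L.N.mul_mem (L.N.mul_mem hm2 (L.N.inv_mem hm1))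
      (L.N.inv_mem (L.rt_mem u q)), ?_⟩
    have g : L.ax u y' = L.rt u ^ q * (m1 * L.ax v y'') := by
      rw [hy', L.ax_shift, hk, sub_add_cancel]
    rw [g]; group
  rw [f1] at e1
  rw [f2] at e2
  have d1 : M.d (x ^ j) (L.ax u y1) ≤ 24 * D' := by omega
  have d2 : M.d (x ^ j') (m * L.ax u y') ≤ 24 * D' := by omega
  by_cases hm0 : m = 1
  · subst hm0
    rw [one_mul] at d2
    have a1 := L.dv_le u (x ^ j) (L.ax u y1)
    have a2 := L.dv_le u (x ^ j') (L.ax u y')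
    have a3 := hρ u j j'
    have a4 := L.pr_ax u y1
    have a5 := L.pr_ax u y'
    have a6 := L.ax_abs_le u y1 y'
    have a7 := M.isGeo.tri (x ^ j) (L.ax u y1) (x ^ j')
    have a8 := M.isGeo.tri (L.ax u y1) (L.ax u y') (x ^ j')
    have a9 := M.isGeo.symm (L.ax u y') (x ^ j')
    rw [pow_d hx] at a7
    unfold Lines.dv at a1 a2 a3
    omega
  · exfalso
    obtain ⟨w, hw⟩ := L.greend hm hm0 (L.ax u y')
    have b1 : L.dv w (L.ax u y') (L.ax u y1) ≤ L.τ / 2 + L.θ := by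
      by_cases hwu : w = u
      · rw [hwu]
        have a4 := L.pr_ax u y1
        have a5 := L.pr_ax u y'
        unfold Lines.dv
        omega
      · have := L.ov u w (Ne.symm hwu) y' y1
        omega
    have b2 := L.dv_le w (x ^ j) (L.ax u y1)
    have b3 := L.dv_le w (x ^ j') (m * L.ax u y')
    have b4 := hρ w j j'
    have c1 := L.dv_tri w (L.ax u y') (L.ax u y1) (m * L.ax u y')
    have c2 := L.dv_tri w (L.ax u y1) (x ^ j) (m * L.ax u y')
    have c3 := L.dv_tri w (x ^ j) (x ^ j') (m * L.ax u y')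
    have c4 := L.dv_symm w (L.ax u y1) (x ^ j)
    omega

/-- points of the line which are not close to the path -/
def JJ (x : G) (D' : ℕ) (a b : ℤ) (n : ℕ) (f : ℕ → L.H) : Set ℤ :=
  {j : ℤ | a ≤ j ∧ j ≤ b ∧ ∀ i ≤ n, D' < L.MH.d ((x ^ j : G) : L.H) (f i)}

theorem JJ_fin (a b : ℤ) (n : ℕ) (f : ℕ → L.H) : (JJ L x D' a b n f).Finite :=
  (Set.finite_Icc a b).subset fun _ hj => ⟨hj.1, hj.2.1⟩

theorem bottle_main (hx : ∀ j : ℕ, M.len (x ^ j) = j)
    (hρ : ∀ (v : L.Y) (i j : ℤ), L.dv v (x ^ i) (x ^ j) ≤ ρ') (h1 : ρ' ≤ L.θ) (h2 : L.κ ≤ D')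
    (h3 : 100 * D' ≤ L.θ) (a b : ℤ) (hab : a ≤ b) : ∀ (n : ℕ) (f : ℕ → L.H),
    4 * L.δ * Nat.clog 2 n ≤ D' → IsPath L.MH.d f n →
    f 0 = ((x ^ a : G) : L.H) → f n = ((x ^ b : G) : L.H) →
      (JJ L x D' a b n f).ncard * L.τ ≤ 4 * n * (ρ' + 200 * D') := by
  have hκ := L.hκ
  have hθ := L.hθ
  have hτ := L.hτ
  intro n
  induction n using Nat.strong_induction_on with
  | _ n IH =>
  intro f hD hf f0 fn
  obtain ⟨F, F0, F1, F2⟩ := M.quo_lift L.N f n hf (x ^ a) f0.symm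
  have hFn : ((F n : G) : L.H) = ((x ^ b : G) : L.H) := by rw [F1 n le_rfl, fn]
  obtain ⟨m, hm, hFm⟩ := (Mark.quo_eq L.N (x ^ b) (F n)).1 hFn.symm
  by_cases hm1 : m = 1
  · -- the lift ends at the right point
    have hempty : JJ L x D' a b n f = ∅ := by
      rw [Set.eq_empty_iff_forall_notMem]
      rintro j ⟨hj1, hj2, hj3⟩
      rw [hm1, one_mul] at hFm
      obtain ⟨i, hi, hi2⟩ := path_near M.isGeo L.hyp n F F2 (x ^ j) (by
        rw [F0, hFm, pow_d hx, pow_d hx, pow_d hx]; omega)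
      have := hj3 i hi
      rw [← F1 i hi] at this
      have := MH_le L (x ^ j) (F i)
      omega
    rw [hempty, Set.ncard_empty]
    omega
  obtain ⟨v, hv⟩ := L.greend hm hm1 (x ^ b)
  rw [← hFm] at hv
  have hv2 : L.τ ≤ L.dv v (x ^ a) (F n) + 25 * L.θ := by
    have := L.dv_tri v (x ^ b) (x ^ a) (F n)
    have := hρ v b a
    omega
  -- the two indices on the axis
  obtain ⟨i1, hi1, hi2, hi3⟩ : ∃ i1 : ℤ, ((L.pr v (x ^ a) ≤ i1 ∧ i1 ≤ L.pr v (F n)) ∨
      (L.pr v (F n) ≤ i1 ∧ i1 ≤ L.pr v (x ^ a))) ∧ (L.pr v (x ^ a) - i1).natAbs ≤ L.τ ∧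
      L.τ ≤ (L.pr v (x ^ a) - i1).natAbs + 25 * L.θ := by
    unfold Lines.dv at hv2
    by_cases hc : (L.pr v (x ^ a) - L.pr v (F n)).natAbs ≤ L.τ
    · exact ⟨L.pr v (F n), by omega, hc, hv2⟩
    · rcases le_total (L.pr v (x ^ a)) (L.pr v (F n)) with h | h
      · exact ⟨L.pr v (x ^ a) + L.τ, by omega, by omega, by omega⟩
      · exact ⟨L.pr v (x ^ a) - L.τ, by omega, by omega, by omega⟩
  set i0 := L.pr v (x ^ a) with hi0
  obtain ⟨g, g1, g2, g3, g4, g5⟩ := geod_str M (x ^ a) (F n)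
  have hbig : 20 * L.κ < L.dv v (x ^ a) (F n) := by omega
  have hpt : ∀ z : ℤ, ((i0 ≤ z ∧ z ≤ L.pr v (F n)) ∨ (L.pr v (F n) ≤ z ∧ z ≤ i0)) →
      ∃ t ≤ n, M.d (F t) (L.ax v z) ≤ 22 * L.κ + D' := by
    intro z hz
    obtain ⟨t, ht, ht2⟩ := L.near v g1 g2 g3 g4 hbig hz
    have hgt := g5 t ht
    obtain ⟨s, hs, hs2⟩ := path_near M.isGeo L.hyp n F F2 (g t) (by rw [F0]; exact hgt)
    refine ⟨s, hs, ?_⟩
    have e1 := M.isGeo.tri (F s) (g t) (L.ax v z)
    have e2 := M.isGeo.symm (F s) (g t)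
    have e3 := M.isGeo.symm (L.ax v z) (g t)
    omega
  obtain ⟨t0, ht0, hd0⟩ := hpt i0 (by omega)
  obtain ⟨t1, ht1, hd1⟩ := hpt i1 hi1
  set r := 22 * L.κ + D' with hr
  -- the two times are far apart
  have hfar : L.τ ≤ M.d (F t0) (F t1) + 26 * L.θ := by
    have e1 := L.ax_abs4 v i0 i1 (by omega)
    have e2 := M.isGeo.tri (L.ax v i0) (F t0) (L.ax v i1)
    have e3 := M.isGeo.tri (F t0) (F t1) (L.ax v i1)
    have e4 := M.isGeo.symm (L.ax v i0) (F t0)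
    omega
  have hH0 : L.MH.d (f t0) ((L.ax v i0 : G) : L.H) ≤ r := by
    rw [← F1 t0 ht0]
    exact (MH_le L _ _).trans hd0
  have hH1 : L.MH.d (f t1) ((L.ax v i1 : G) : L.H) ≤ r := by
    rw [← F1 t1 ht1]
    exact (MH_le L _ _).trans hd1
  -- ordered version
  obtain ⟨lo, hi, hlohi, hhin, hfar2, hdet⟩ : ∃ lo hi, lo ≤ hi ∧ hi ≤ n ∧
      L.τ ≤ (hi - lo) + 26 * L.θ ∧
      ∃ ℓ, ℓ ≤ 26 * L.θ ∧ PIn L.MH.d (nbh L v r) (f lo) (f hi) ℓ := by
    obtain ⟨ℓ, hℓ, hp⟩ := detour L v r hH0 hH1 hi2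
    rcases le_total t0 t1 with h | h
    · refine ⟨t0, t1, h, ht1, ?_, ℓ, by omega, hp⟩
      have := M.isGeo.path_le F2 t0 t1 h ht1
      omega
    · refine ⟨t1, t0, h, ht0, ?_, ℓ, by omega, PIn.symm L.MH.isGeo hp⟩
      have := M.isGeo.path_le F2 t1 t0 h ht0
      have := M.isGeo.symm (F t0) (F t1)
      omega
  obtain ⟨ℓ, hℓ, hp⟩ := hdet
  set S : Set L.H := f '' {t | t ≤ n} ∪ nbh L v r with hS
  have hpath : PIn L.MH.d S (f 0) (f n) (lo + ℓ + (n - hi)) := by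
    have p1 := (PIn.sub hf (Nat.zero_le lo) (by omega)).mono
      (Set.subset_union_left : _ ⊆ S)
    have p2 := hp.mono (Set.subset_union_right : _ ⊆ S)
    have p3 := (PIn.sub hf hhin le_rfl).mono (Set.subset_union_left : _ ⊆ S)
    rw [Nat.sub_zero] at p1
    exact (p1.trans p2).trans p3
  obtain ⟨f', q1, q2, q3, q4⟩ := hpath
  set n' := lo + ℓ + (n - hi) with hn'
  have hn'n : n' + L.τ ≤ n + 52 * L.θ := by omega
  have hlt : n' < n := by omega
  have ih := IH n' hlt f' (le_trans (Nat.mul_le_mul_left _ (Nat.clog_mono_right 2 hlt.le)) hD) q1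
    (q2.trans f0) (q3.trans fn)
  -- the remaining points
  set B : Set ℤ := {j | a ≤ j ∧ j ≤ b ∧ ((x ^ j : G) : L.H) ∈ nbh L v (24 * D')} with hB
  have hBfin : B.Finite := (Set.finite_Icc a b).subset fun _ hj => ⟨hj.1, hj.2.1⟩
  have hsub : JJ L x D' a b n f ⊆ JJ L x D' a b n' f' ∪ B := by
    rintro j ⟨hj1, hj2, hj3⟩
    by_cases hc : ∀ i ≤ n', D' < L.MH.d ((x ^ j : G) : L.H) (f' i)
    · exact Or.inl ⟨hj1, hj2, hc⟩
    · push Not at hc
      obtain ⟨i, hi', hi''⟩ := hc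
      right
      refine ⟨hj1, hj2, ?_⟩
      rcases q4 i hi' with ⟨t, ht, hft⟩ | ⟨z, hz⟩
      · exfalso
        have := hj3 t ht
        rw [hft] at this
        omega
      · refine ⟨z, ?_⟩
        have := L.MH.isGeo.tri ((x ^ j : G) : L.H) (f' i) ((L.ax v z : G) : L.H)
        omega
  have hBcard : B.ncard ≤ ρ' + 230 * D' + 1 := by
    rcases B.eq_empty_or_nonempty with he | hne
    · rw [he, Set.ncard_empty]; omega
    · obtain ⟨j0, hj0, hmin⟩ := Set.exists_min_image B id hBfin hne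
      have hsubB : B ⊆ Set.Icc j0 (j0 + (ρ' + 230 * D' : ℕ)) := by
        intro j hj
        have e1 : j0 ≤ j := hmin j hj
        have e2 := diam L hx hρ h1 h2 h3 v hj.2.2 hj0.2.2
        refine ⟨e1, ?_⟩
        push_cast
        omega
      refine (Set.ncard_le_ncard hsubB (Set.finite_Icc _ _)).trans ?_
      rw [← Finset.coe_Icc, Set.ncard_coe_finset, Int.card_Icc]
      push_cast
      omega
  have hcard : (JJ L x D' a b n f).ncard ≤ (JJ L x D' a b n' f').ncard + B.ncard :=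
    (Set.ncard_le_ncard hsub ((JJ_fin L a b n' f').union hBfin)).trans (Set.ncard_union_le _ _)
  -- the numbers
  have k1 : (JJ L x D' a b n f).ncard * L.τ ≤
      4 * n' * (ρ' + 200 * D') + (ρ' + 230 * D' + 1) * L.τ := by
    calc _ ≤ ((JJ L x D' a b n' f').ncard + B.ncard) * L.τ := Nat.mul_le_mul_right _ hcard
      _ = (JJ L x D' a b n' f').ncard * L.τ + B.ncard * L.τ := by ring
      _ ≤ _ := Nat.add_le_add ih (Nat.mul_le_mul_right _ hBcard)
  have k2 : 2 * (n' + L.τ) ≤ 2 * n + L.τ := by omega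
  have k3 : (2 * (n' + L.τ)) * (2 * (ρ' + 200 * D')) ≤ (2 * n + L.τ) * (2 * (ρ' + 200 * D')) :=
    Nat.mul_le_mul_right _ k2
  have k4 : (ρ' + 230 * D' + 1) * L.τ ≤ 2 * (ρ' + 200 * D') * L.τ :=
    Nat.mul_le_mul_right _ (by omega)
  have k5 : (2 * (n' + L.τ)) * (2 * (ρ' + 200 * D')) =
    4 * n' * (ρ' + 200 * D') + 2 * (2 * (ρ' + 200 * D') * L.τ) := by ring
  have k6 : (2 * n + L.τ) * (2 * (ρ' + 200 * D')) =
    4 * n * (ρ' + 200 * D') + 2 * (ρ' + 200 * D') * L.τ := by ring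
  omega

end main

theorem stmtM6Bottle : StmtM6Bottle := by
  intro G _ M ι L x ρ' D' hx hρ h1 h2 h3 n f a b hD hf hab f0 fn
  exact bottle_main L hx hρ h1 h2 h3 a b hab n f hD hf f0 fn

end Pool.Agent.Helper54.MLBottle
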